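import Mathlib
import Pool.Agent.TH591.Lie.Rep7

set_option autoImplicit false

/-!
# Bernstein's inequality with one-sided bounds

If `-a ≤ ⟪y, exp (t S) x⟫ ≤ 1` for all real `t`, where `S` is a skew-adjoint operator of norm at
most `κ`, then `|⟪y, S x⟫| ≤ κ (1 + a) / 2`. The gradient estimates of
`Pool/Agent/TH591/Lie/Alg.lean` for invariant bodies which need not be symmetric.
-/

namespace Pool.Agent.Y368.Lie

open scoped InnerProductSpace
open Pool.Agent.TH591.Lie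

variable {E : Type*} [NormedAddCommGroup E] [InnerProductSpace ℝ E] [FiniteDimensional ℝ E]

theorem bern_scalar' {J : Type*} [Fintype J] (b l : J → ℝ) (κ : ℝ) (hκ : 0 < κ) (c : ℝ)
    (hc : 0 < c) (hl : ∀ j, |l j| ≤ κ) (hg : ∀ t : ℝ, |∑ j, b j * Real.sin (t * l j)| ≤ c) :
    |∑ j, b j * l j| ≤ κ * c := by
  have h := bern_scalar (fun j => b j / c) l κ hκ hl (fun t => by
    have e : ∑ j, b j / c * Real.sin (t * l j) = (∑ j, b j * Real.sin (t * l j)) / c := by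
      rw [Finset.sum_div]
      exact Finset.sum_congr rfl fun j _ => by ring
    rw [e, abs_div, abs_of_pos hc, div_le_one hc]
    exact hg t)
  have e : ∑ j, b j / c * l j = (∑ j, b j * l j) / c := by
    rw [Finset.sum_div]
    exact Finset.sum_congr rfl fun j _ => by ring
  rw [e, abs_div, abs_of_pos hc, div_le_iff₀ hc] at h
  exact h

/-- **Bernstein's inequality** with one-sided bounds. -/
theorem bern_asym (S : E →L[ℝ] E) (hS : ∀ x y, ⟪S x, y⟫_ℝ = -⟪x, S y⟫_ℝ) (κ : ℝ) (hκ : 0 < κ)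
    (hn : ∀ x, ‖S x‖ ≤ κ * ‖x‖) (a : ℝ) (ha : 0 < a) (x y : E)
    (h1 : ∀ t : ℝ, ⟪y, NormedSpace.exp (t • S) x⟫_ℝ ≤ 1)
    (h2 : ∀ t : ℝ, -a ≤ ⟪y, NormedSpace.exp (t • S) x⟫_ℝ) :
    |⟪y, S x⟫_ℝ| ≤ κ * ((1 + a) / 2) := by
  classical
  let T : E →ₗ[ℝ] E := -((S : E →ₗ[ℝ] E) ∘ₗ (S : E →ₗ[ℝ] E))
  have hTa : ∀ z, T z = -(S (S z)) := fun z => rfl
  have hT : T.IsSymmetric := by
    intro a b
    rw [hTa, hTa, inner_neg_left, inner_neg_right, hS, hS, neg_neg]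
  let e := hT.eigenvectorBasis rfl
  let μ := hT.eigenvalues rfl
  have hTe : ∀ j, T (e j) = μ j • e j := fun j => hT.apply_eigenvectorBasis rfl j
  have hμ : ∀ j, μ j = ‖S (e j)‖ ^ 2 := by
    intro j
    have h1 : ⟪e j, T (e j)⟫_ℝ = μ j := by
      rw [hTe, inner_smul_right, real_inner_self_eq_norm_sq, e.norm_eq_one]
      ring
    rw [← h1, hTa, inner_neg_right, ← hS, real_inner_self_eq_norm_sq]
  let l : Fin (Module.finrank ℝ E) → ℝ := fun j => ‖S (e j)‖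
  have hlS : ∀ j, S (S (e j)) = -(l j ^ 2) • e j := by
    intro j
    have h1 := hTe j
    rw [hTa, hμ] at h1
    rw [neg_smul, ← h1, neg_neg]
  have hflow : ∀ t j, NormedSpace.exp (t • S) (e j)
      = Real.cos (t * l j) • e j + (Real.sin (t * l j) / l j) • S (e j) := by
    intro t j
    exact flow_plane S (e j) (l j) (hlS j) (fun h0 => by simpa [l] using h0) t
  let b : Fin (Module.finrank ℝ E) → ℝ := fun j => ⟪e j, x⟫_ℝ * ⟪y, S (e j)⟫_ℝ / l j
  have hx : x = ∑ j, ⟪e j, x⟫_ℝ • e j := (e.sum_repr' x).symm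
  have hexp : ∀ t : ℝ, ⟪y, NormedSpace.exp (t • S) x⟫_ℝ
      = ∑ j, ⟪e j, x⟫_ℝ * (Real.cos (t * l j) * ⟪y, e j⟫_ℝ)
        + ∑ j, b j * Real.sin (t * l j) := by
    intro t
    conv_lhs => rw [hx]
    rw [map_sum, inner_sum, ← Finset.sum_add_distrib]
    refine Finset.sum_congr rfl fun j _ => ?_
    rw [map_smul, inner_smul_right, hflow, inner_add_right, inner_smul_right, inner_smul_right]
    simp only [b]
    ring
  have hsum : ∑ j, b j * l j = ⟪y, S x⟫_ℝ := by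
    conv_rhs => rw [hx]
    rw [map_sum, inner_sum]
    refine Finset.sum_congr rfl fun j _ => ?_
    rw [map_smul, inner_smul_right]
    simp only [b]
    rcases eq_or_ne (l j) 0 with h0 | h0
    · have : S (e j) = 0 := by simpa [l] using h0
      simp [this]
    · field_simp
  rw [← hsum]
  refine bern_scalar' b l κ hκ _ (by positivity) ?_ ?_
  · intro j
    rw [abs_of_nonneg (norm_nonneg _)]
    have := hn (e j)
    rwa [e.norm_eq_one, mul_one] at this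
  · intro t
    have h3 := h1 t
    have h4 := h2 t
    have h5 := h1 (-t)
    have h6 := h2 (-t)
    rw [hexp] at h3 h4 h5 h6
    simp only [neg_mul, Real.cos_neg, Real.sin_neg, mul_neg, Finset.sum_neg_distrib] at h5 h6
    rw [abs_le]
    constructor <;> linarith

variable {ι : Type*} [Fintype ι]

/-- The gradient of a functional with values in `[-a, 1]`. -/
theorem grad_le_asym (X : ι → E →L[ℝ] E) (hX : ∀ i x y, ⟪X i x, y⟫_ℝ = -⟪x, X i y⟫_ℝ) (κ : ℝ)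
    (hκ : 0 < κ) (hn : ∀ a : ι → ℝ, ∑ i, a i ^ 2 ≤ 1 → ∀ x, ‖∑ i, a i • X i x‖ ≤ κ * ‖x‖)
    (K : Set E) (hK : Inv X K) (y : E) (a : ℝ) (ha : 0 < a) (hy1 : ∀ x ∈ K, ⟪y, x⟫_ℝ ≤ 1)
    (hy2 : ∀ x ∈ K, -a ≤ ⟪y, x⟫_ℝ) (x : E) (hx : x ∈ K) :
    ∑ i, ⟪y, X i x⟫_ℝ ^ 2 ≤ (κ * ((1 + a) / 2)) ^ 2 := by
  set s : ℝ := √(∑ i, ⟪y, X i x⟫_ℝ ^ 2) with hs
  have hnn : 0 ≤ ∑ i, ⟪y, X i x⟫_ℝ ^ 2 := Finset.sum_nonneg fun i _ => sq_nonneg _
  have hss : s ^ 2 = ∑ i, ⟪y, X i x⟫_ℝ ^ 2 := Real.sq_sqrt hnn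
  rcases eq_or_ne s 0 with h0 | h0
  · rw [← hss, h0]
    nlinarith [sq_nonneg (κ * ((1 + a) / 2))]
  have hspos : 0 < s := lt_of_le_of_ne (Real.sqrt_nonneg _) (Ne.symm h0)
  let b : ι → ℝ := fun i => ⟪y, X i x⟫_ℝ / s
  have hb : ∑ i, b i ^ 2 = 1 := by
    simp only [b, div_pow]
    rw [← Finset.sum_div, ← hss]
    exact div_self (pow_ne_zero _ h0)
  have hbb := bern_asym (comb X b) (comb_skew X hX b) κ hκ (fun z => by
    rw [comb_apply]; exact hn b hb.le z) a ha x y (fun t => by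
      rw [smul_comb]
      exact hy1 _ (hK (t • b) x hx)) (fun t => by
      rw [smul_comb]
      exact hy2 _ (hK (t • b) x hx))
  have h1 : ⟪y, comb X b x⟫_ℝ = s := by
    rw [comb_apply, inner_sum]
    have : ∀ i, ⟪y, b i • X i x⟫_ℝ = ⟪y, X i x⟫_ℝ ^ 2 / s := by
      intro i
      rw [real_inner_smul_right]
      simp only [b]
      ring
    simp only [this]
    rw [← Finset.sum_div, ← hss]
    field_simp
  rw [h1, abs_of_pos hspos] at hbb
  rw [← hss]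
  gcongr

end Pool.Agent.Y368.Lie
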