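import Mathlib
import Pool.Agent.Results.MP_eba1ef_gt.AsymmetricThinSlabs
import Pool.Agent.Y368.Lie.Bern

set_option autoImplicit false

/-!
# Covering bodies which need not be symmetric and all functionals of which are thin

A transfer of the theorem on thin slabs to an arbitrary Euclidean space, and the covering theorems
for invariant bodies.
-/

namespace Pool.Agent.Y368.Lie

open MeasureTheory
open scoped InnerProductSpace
open Pool.Agent.Results.MP_eba1ef_gt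
open Pool.Agent.TH591.Lie

variable {E : Type*} [NormedAddCommGroup E] [InnerProductSpace ℝ E] [FiniteDimensional ℝ E]

/-- `0` is an interior point of a convex body with bounded asymmetry. -/
theorem zero_mem_interior (K : Set E) (hK : Convex ℝ K) (hKi : (interior K).Nonempty) (a : ℝ)
    (ha : 0 < a) (hKa : ∀ x ∈ K, -(a⁻¹ • x) ∈ K) : (0 : E) ∈ interior K := by
  obtain ⟨z, hz⟩ := hKi
  have h1 := hKa z (interior_subset hz)
  have h := hK.combo_interior_self_mem_interior hz h1 (a := 1 / (1 + a)) (b := a / (1 + a))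
    (by positivity) (by positivity) (by field_simp)
  have e : (1 / (1 + a)) • z + (a / (1 + a)) • -(a⁻¹ • z) = 0 := by
    rw [smul_neg, smul_smul, ← sub_eq_add_neg, ← sub_smul]
    have : 1 / (1 + a) - a / (1 + a) * a⁻¹ = 0 := by field_simp; ring
    rw [this, zero_smul]
  rwa [e] at h

variable [MeasurableSpace E] [BorelSpace E]

/-- A body all functionals of which are thin. -/
theorem cover_of_thin (K : Set E) (hd : 2 ≤ Module.finrank ℝ E)
    (hK : Convex ℝ K) (hKc : IsCompact K) (hKi : (0 : E) ∈ interior K) (τ : ℝ) (hτ : 0 < τ)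
    (hthin : ∀ y : E, (∀ x ∈ K, ⟪y, x⟫_ℝ ≤ 1) →
      (volume {x ∈ K | 1 / 4 ≤ |⟪y, x⟫_ℝ|}).toReal ≤ τ * (volume K).toReal) :
    ∃ T : Finset E, K ⊆ ⋃ t ∈ T, (fun x => t + x) '' interior K ∧
      (T.card : ℝ) ≤ 1 + 12 * Module.finrank ℝ E * Real.log (2 * Module.finrank ℝ E ^ 2
        + 2 * Module.finrank ℝ E + 1) * 2 ^ Module.finrank ℝ E * τ ^ (1 / 60 : ℝ) := by
  classical
  set d := Module.finrank ℝ E with hdd
  let e : E ≃ₗᵢ[ℝ] EuclideanSpace ℝ (Fin d) := (stdOrthonormalBasis ℝ E).repr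
  let K' : Set (EuclideanSpace ℝ (Fin d)) := e '' K
  have hK' : Convex ℝ K' := hK.linear_image e.toLinearEquiv.toLinearMap
  have hKc' : IsCompact K' := hKc.image e.continuous
  have hint : interior K' = e '' interior K := (e.toHomeomorph.image_interior K).symm
  have h0i : (0 : EuclideanSpace ℝ (Fin d)) ∈ interior K' := by
    rw [hint]
    exact ⟨0, hKi, map_zero e⟩
  have h0 : K' ∈ nhds (0 : EuclideanSpace ℝ (Fin d)) := mem_interior_iff_mem_nhds.mp h0i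
  have hpre : ∀ s : Set (EuclideanSpace ℝ (Fin d)), volume (e ⁻¹' s) = volume s := by
    intro s
    exact e.measurePreserving.measure_preimage_emb e.toHomeomorph.measurableEmbedding s
  have hthin' : K' ⊆ AsymmetricThinSlabs.thinPart K' τ := by
    intro z hz
    obtain ⟨φ, hφz, hφ⟩ := exists_norming K' hK' h0 z
    have hφ1 : ∀ x ∈ K', φ x ≤ 1 := fun x hx => (hφ x).trans (gauge_le_one_of_mem hx)
    refine ⟨hz, φ, ⟨hφ1, ?_⟩, hφz⟩
    let y : E := (InnerProductSpace.toDual ℝ E).symm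
      (φ.comp (e.toContinuousLinearEquiv : E →L[ℝ] EuclideanSpace ℝ (Fin d)))
    have hy : ∀ x, ⟪y, x⟫_ℝ = φ (e x) := by
      intro x
      simp only [y]
      rw [InnerProductSpace.toDual_symm_apply]
      rfl
    have h1 := hthin y (fun x hx => by rw [hy]; exact hφ1 _ ⟨x, hx, rfl⟩)
    have e1 : e ⁻¹' K' = K := Set.preimage_image_eq K e.injective
    have e2 : {x ∈ K | 1 / 4 ≤ |⟪y, x⟫_ℝ|} = e ⁻¹' {z ∈ K' | 1 / 4 ≤ |φ z|} := by
      ext x
      simp only [Set.mem_ofPred_eq, Set.mem_preimage, hy]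
      rw [← Set.mem_preimage, e1]
    rw [e2, hpre] at h1
    have e3 : volume K = volume K' := by rw [← hpre K', e1]
    rwa [e3] at h1
  have hmono : 1 * (volume K').toReal
      ≤ (volume (AsymmetricThinSlabs.thinPart K' τ)).toReal := by
    rw [one_mul]
    refine ENNReal.toReal_mono ?_ (measure_mono hthin')
    exact ne_top_of_le_ne_top hKc'.measure_lt_top.ne (measure_mono fun z hz => hz.1)
  obtain ⟨T, hT1, hT2, -⟩ := (AsymmetricThinSlabs.result d hd K' hK' hKc' h0i).1 τ 1 hτ one_pos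
    le_rfl hmono
  refine ⟨T.image e.symm, ?_, ?_⟩
  · intro x hx
    have h := hT1 ⟨x, hx, rfl⟩
    simp only [Set.mem_iUnion] at h ⊢
    obtain ⟨t, ht, w, hw, hwt⟩ := h
    rw [hint] at hw
    obtain ⟨w', hw', rfl⟩ := hw
    refine ⟨e.symm t, Finset.mem_image_of_mem _ ht, w', hw', ?_⟩
    apply e.injective
    simpa using hwt
  · refine le_trans ?_ hT2
    exact_mod_cast Finset.card_image_le

theorem two_rpow_le' : (2 : ℝ) ^ (1 / 60 : ℝ) ≤ 13 / 12 := by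
  have h1 : ((2 : ℝ) ^ (1 / 60 : ℝ)) ^ (60 : ℕ) = 2 := by
    rw [← Real.rpow_natCast, ← Real.rpow_mul (by norm_num)]
    norm_num
  by_contra h
  push Not at h
  have h2 : (13 / 12 : ℝ) ^ (60 : ℕ) < ((2 : ℝ) ^ (1 / 60 : ℝ)) ^ (60 : ℕ) := by gcongr
  rw [h1] at h2
  norm_num at h2

/-- The covering bound for a body all functionals of which have small tails. -/
theorem cover_of_tail' (K : Set E) (hd : 2 ≤ Module.finrank ℝ E)
    (hK : Convex ℝ K) (hKc : IsCompact K) (hKi : (0 : E) ∈ interior K) (m : ℝ)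
    (hthin : ∀ y : E, (∀ x ∈ K, ⟪y, x⟫_ℝ ≤ 1) →
      (volume {x ∈ K | 1 / 4 ≤ |⟪y, x⟫_ℝ|}).toReal ≤ 2 * Real.exp (-m) * (volume K).toReal) :
    ∃ T : Finset E, K ⊆ ⋃ t ∈ T, (fun x => t + x) '' interior K ∧
      (T.card : ℝ) ≤ 1 + 13 * Module.finrank ℝ E * Real.log (2 * Module.finrank ℝ E ^ 2
        + 2 * Module.finrank ℝ E + 1) * 2 ^ Module.finrank ℝ E * Real.exp (-(m / 60)) := by
  obtain ⟨T, hT1, hT2⟩ := cover_of_thin K hd hK hKc hKi (2 * Real.exp (-m)) (by positivity) hthin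
  have hp : (2 * Real.exp (-m)) ^ (1 / 60 : ℝ) ≤ 13 / 12 * Real.exp (-(m / 60)) := by
    rw [Real.mul_rpow (by norm_num) (Real.exp_pos _).le, ← Real.exp_mul]
    have e : -m * (1 / 60) = -(m / 60) := by ring
    rw [e]
    exact mul_le_mul_of_nonneg_right two_rpow_le' (Real.exp_pos _).le
  have hd' : (2 : ℝ) ≤ Module.finrank ℝ E := by exact_mod_cast hd
  have hlog : 0 ≤ Real.log (2 * (Module.finrank ℝ E : ℝ) ^ 2 + 2 * Module.finrank ℝ E + 1) :=
    Real.log_nonneg (by nlinarith)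
  refine ⟨T, hT1, hT2.trans ?_⟩
  have h1 : 12 * (Module.finrank ℝ E : ℝ) * Real.log (2 * (Module.finrank ℝ E : ℝ) ^ 2
      + 2 * Module.finrank ℝ E + 1) * 2 ^ Module.finrank ℝ E * (2 * Real.exp (-m)) ^ (1 / 60 : ℝ)
      ≤ 12 * Module.finrank ℝ E * Real.log (2 * (Module.finrank ℝ E : ℝ) ^ 2
      + 2 * Module.finrank ℝ E + 1) * 2 ^ Module.finrank ℝ E
        * (13 / 12 * Real.exp (-(m / 60))) := by gcongr
  linarith

/-- **Bodies with a compact semisimple group of symmetries.** -/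
theorem cover_casimir' {ι : Type*} [Fintype ι] (X : ι → E →L[ℝ] E)
    (hX : ∀ i x y, ⟪X i x, y⟫_ℝ = -⟪x, X i y⟫_ℝ)
    (hcas : ∀ j x, ∑ i, X j (X i (X i x)) = ∑ i, X i (X i (X j x))) (γ : ℝ) (hγ : 0 < γ)
    (hkill : ∀ z x : E, γ * ∑ k, ⟪z, X k x⟫_ℝ ^ 2
      ≤ ∑ i, ∑ j, ⟪z, X i (X j x) - X j (X i x)⟫_ℝ ^ 2)
    (hfix : ∀ x, (∀ i, X i x = 0) → x = 0) (κ : ℝ) (hκ : 0 < κ)
    (hn : ∀ a : ι → ℝ, ∑ i, a i ^ 2 ≤ 1 → ∀ x, ‖∑ i, a i • X i x‖ ≤ κ * ‖x‖)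
    (K : Set E) (hd : 2 ≤ Module.finrank ℝ E)
    (hK : Convex ℝ K) (hKc : IsCompact K) (hKi : (interior K).Nonempty)
    (a : ℝ) (ha : 0 < a) (hKa : ∀ x ∈ K, -(a⁻¹ • x) ∈ K) (hinv : Inv X K) :
    ∃ T : Finset E, K ⊆ ⋃ t ∈ T, (fun x => t + x) '' interior K ∧
      (T.card : ℝ) ≤ 1 + 13 * Module.finrank ℝ E * Real.log (2 * Module.finrank ℝ E ^ 2
        + 2 * Module.finrank ℝ E + 1) * 2 ^ Module.finrank ℝ E
        * Real.exp (-(γ / (1920 * κ ^ 2 * (1 + a) ^ 2))) := by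
  classical
  have h := cover_of_tail' K hd hK hKc (zero_mem_interior K hK hKi a ha hKa)
    (γ / (32 * κ ^ 2 * (1 + a) ^ 2)) ?_
  · have e : γ / (32 * κ ^ 2 * (1 + a) ^ 2) / 60 = γ / (1920 * κ ^ 2 * (1 + a) ^ 2) := by
      field_simp
      norm_num
    rwa [e] at h
  · intro y hy
    have hy2 : ∀ x ∈ K, -a ≤ ⟪y, x⟫_ℝ := by
      intro x hx
      have h1 := hy _ (hKa x hx)
      rw [inner_neg_right, real_inner_smul_right, neg_le, inv_mul_eq_div,
        le_div_iff₀ ha] at h1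
      linarith
    obtain ⟨z, hz⟩ := exists_casimir_preimage X hX hfix y
    have hgy := grad_le_asym X hX κ hκ hn K hinv y a ha hy hy2
    have hgz := grad_le_of_casimir X hcas γ hγ hkill K hKc hinv y z hz (κ * ((1 + a) / 2))
      (by positivity) (fun x hx => hgy x hx)
    have hB : ∀ x ∈ K, ∑ i, ⟪z, X i x⟫_ℝ * ⟪y, X i x⟫_ℝ ≤ κ ^ 2 * (1 + a) ^ 2 / γ := by
      intro x hx
      refine (Real.sum_mul_le_sqrt_mul_sqrt _ _ _).trans ?_
      have h1 : √(∑ i, ⟪z, X i x⟫_ℝ ^ 2) ≤ 4 * (κ * ((1 + a) / 2)) / γ := by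
        rw [Real.sqrt_le_left (by positivity)]
        exact hgz x hx
      have h2 : √(∑ i, ⟪y, X i x⟫_ℝ ^ 2) ≤ κ * ((1 + a) / 2) := by
        rw [Real.sqrt_le_left (by positivity)]
        exact hgy x hx
      calc √(∑ i, ⟪z, X i x⟫_ℝ ^ 2) * √(∑ i, ⟪y, X i x⟫_ℝ ^ 2)
          ≤ 4 * (κ * ((1 + a) / 2)) / γ * (κ * ((1 + a) / 2)) :=
            mul_le_mul h1 h2 (Real.sqrt_nonneg _) (by positivity)
        _ = κ ^ 2 * (1 + a) ^ 2 / γ := by ring
    have ht := tail_le X hX K hKc hinv y z hz (κ ^ 2 * (1 + a) ^ 2 / γ) (by positivity) hB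
    have e : -1 / (32 * (κ ^ 2 * (1 + a) ^ 2 / γ)) = -(γ / (32 * κ ^ 2 * (1 + a) ^ 2)) := by
      field_simp
    rwa [e] at ht

/-- **Bodies with an irreducible group of symmetries** (more generally, the Casimir operator is
a scalar). -/
theorem cover_scalar' {ι : Type*} [Fintype ι] (X : ι → E →L[ℝ] E)
    (hX : ∀ i x y, ⟪X i x, y⟫_ℝ = -⟪x, X i y⟫_ℝ) (q : ℝ) (hq : 0 < q)
    (hcas : ∀ x, -∑ i, X i (X i x) = q • x) (κ : ℝ) (hκ : 0 < κ)
    (hn : ∀ a : ι → ℝ, ∑ i, a i ^ 2 ≤ 1 → ∀ x, ‖∑ i, a i • X i x‖ ≤ κ * ‖x‖)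
    (K : Set E) (hd : 2 ≤ Module.finrank ℝ E)
    (hK : Convex ℝ K) (hKc : IsCompact K) (hKi : (interior K).Nonempty)
    (a : ℝ) (ha : 0 < a) (hKa : ∀ x ∈ K, -(a⁻¹ • x) ∈ K) (hinv : Inv X K) :
    ∃ T : Finset E, K ⊆ ⋃ t ∈ T, (fun x => t + x) '' interior K ∧
      (T.card : ℝ) ≤ 1 + 13 * Module.finrank ℝ E * Real.log (2 * Module.finrank ℝ E ^ 2
        + 2 * Module.finrank ℝ E + 1) * 2 ^ Module.finrank ℝ E
        * Real.exp (-(q / (480 * κ ^ 2 * (1 + a) ^ 2))) := by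
  classical
  have h := cover_of_tail' K hd hK hKc (zero_mem_interior K hK hKi a ha hKa)
    (q / (8 * κ ^ 2 * (1 + a) ^ 2)) ?_
  · have e : q / (8 * κ ^ 2 * (1 + a) ^ 2) / 60 = q / (480 * κ ^ 2 * (1 + a) ^ 2) := by
      field_simp
      norm_num
    rwa [e] at h
  · intro y hy
    have hy2 : ∀ x ∈ K, -a ≤ ⟪y, x⟫_ℝ := by
      intro x hx
      have h1 := hy _ (hKa x hx)
      rw [inner_neg_right, real_inner_smul_right, neg_le, inv_mul_eq_div,
        le_div_iff₀ ha] at h1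
      linarith
    have hz : ∀ x, ⟪y, x⟫_ℝ = -∑ i, ⟪q⁻¹ • y, X i (X i x)⟫_ℝ := by
      intro x
      rw [← inner_sum, ← inner_neg_right, hcas, real_inner_smul_left, real_inner_smul_right,
        inv_mul_cancel_left₀ hq.ne']
    have hgy := grad_le_asym X hX κ hκ hn K hinv y a ha hy hy2
    have hB : ∀ x ∈ K, ∑ i, ⟪q⁻¹ • y, X i x⟫_ℝ * ⟪y, X i x⟫_ℝ
        ≤ κ ^ 2 * (1 + a) ^ 2 / (4 * q) := by
      intro x hx
      have h1 : ∑ i, ⟪q⁻¹ • y, X i x⟫_ℝ * ⟪y, X i x⟫_ℝ = q⁻¹ * ∑ i, ⟪y, X i x⟫_ℝ ^ 2 := by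
        rw [Finset.mul_sum]
        refine Finset.sum_congr rfl fun i _ => ?_
        rw [real_inner_smul_left]
        ring
      rw [h1]
      refine (mul_le_mul_of_nonneg_left (hgy x hx) (by positivity)).trans (le_of_eq ?_)
      field_simp
      ring
    have ht := tail_le X hX K hKc hinv y _ hz (κ ^ 2 * (1 + a) ^ 2 / (4 * q)) (by positivity) hB
    have e : -1 / (32 * (κ ^ 2 * (1 + a) ^ 2 / (4 * q))) = -(q / (8 * κ ^ 2 * (1 + a) ^ 2)) := by
      field_simp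
      norm_num
    rwa [e] at ht

/-- **Bodies invariant under an orthogonal representation of `SO(n)` of degree at most `k`.** -/
theorem cover_so' {n : ℕ} (hn : 3 ≤ n) (k : ℕ) (hk : 1 ≤ k)
    (ρ : Matrix.specialOrthogonalGroup (Fin n) ℝ →* (E ≃ₗᵢ[ℝ] E)) (hρ : PolyRep ρ k)
    (hfix : ∀ x, (∀ g, ρ g x = x) → x = 0)
    (K : Set E) (hd : 2 ≤ Module.finrank ℝ E)
    (hK : Convex ℝ K) (hKc : IsCompact K) (hKi : (interior K).Nonempty)
    (a : ℝ) (ha : 0 < a) (hKa : ∀ x ∈ K, -(a⁻¹ • x) ∈ K) (hinv : ∀ g, ∀ x ∈ K, ρ g x ∈ K) :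
    ∃ T : Finset E, K ⊆ ⋃ t ∈ T, (fun x => t + x) '' interior K ∧
      (T.card : ℝ) ≤ 1 + 13 * Module.finrank ℝ E * Real.log (2 * Module.finrank ℝ E ^ 2
        + 2 * Module.finrank ℝ E + 1) * 2 ^ Module.finrank ℝ E
        * Real.exp (-((n - 2) / (960 * k ^ 2 * (1 + a) ^ 2))) := by
  obtain ⟨R, hR, hRρ⟩ := exists_extension ρ k hρ
  have hn' : (3 : ℝ) ≤ n := by exact_mod_cast hn
  have hk' : (1 : ℝ) ≤ k := by exact_mod_cast hk
  have hsq : (0 : ℝ) < √2 := by positivity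
  have a1 : ∀ p, Skew (dR R (XI n p)) := fun p => dR_skew ρ R hR hRρ _ (XI_skew p)
  have a2 : ∀ j x, ∑ i, dR R (XI n j) (dR R (XI n i) (dR R (XI n i) x))
      = ∑ i, dR R (XI n i) (dR R (XI n i) (dR R (XI n j) x)) := X_casimir ρ R hR hRρ
  have a3 : ∀ z x : E, (4 * n - 8 : ℝ) * ∑ k, ⟪z, dR R (XI n k) x⟫_ℝ ^ 2
      ≤ ∑ i, ∑ j, ⟪z, dR R (XI n i) (dR R (XI n j) x) - dR R (XI n j) (dR R (XI n i) x)⟫_ℝ ^ 2 :=
    X_kill ρ R hR hRρ
  have a4 : ∀ x, (∀ i, dR R (XI n i) x = 0) → x = 0 := X_fix ρ R hR hRρ hfix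
  have a5 := X_norm ρ R hR hRρ k hρ
  have a6 := X_inv ρ R hR hRρ K hinv
  have a7 : (0 : ℝ) < 4 * n - 8 := by linarith
  have a8 : (0 : ℝ) < k * √2 := by positivity
  have e : (4 * (n : ℝ) - 8) / (1920 * (k * √2) ^ 2 * (1 + a) ^ 2)
      = (n - 2) / (960 * k ^ 2 * (1 + a) ^ 2) := by
    rw [mul_pow, Real.sq_sqrt (by norm_num)]
    field_simp
    ring
  rw [← e]
  clear e
  generalize hXdef : (fun p => dR R (XI n p)) = X at a6
  have hXp : ∀ p, dR R (XI n p) = X p := fun p => congrFun hXdef p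
  simp only [hXp] at a1 a2 a3 a4 a5
  clear hXp hXdef
  exact cover_casimir' X a1 a2 (4 * n - 8) a7 a3 a4 (k * √2) a8 a5 K hd hK hKc hKi a ha hKa a6

end Pool.Agent.Y368.Lie
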