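import Mathlib
import Pool.Agent.Y368.Lie.Cover

set_option autoImplicit false

/-!
# Convex bodies of matrices invariant under rotations of the columns
-/

namespace Pool.Agent.Y368.Lie

open scoped InnerProductSpace
open Pool.Agent.TH591.Lie

/-- Multiplication of an `n × m` matrix by an `n × n` matrix from the left. -/
noncomputable def lmul {n m : ℕ} (U : Matrix (Fin n) (Fin n) ℝ)
    (x : EuclideanSpace ℝ (Fin n × Fin m)) : EuclideanSpace ℝ (Fin n × Fin m) :=
  WithLp.toLp 2 fun p => ∑ j, U p.1 j * x (j, p.2)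

variable {n m : ℕ}

theorem lmul_apply (U : Matrix (Fin n) (Fin n) ℝ) (x : EuclideanSpace ℝ (Fin n × Fin m))
    (p : Fin n × Fin m) : lmul U x p = ∑ j, U p.1 j * x (j, p.2) := rfl

theorem lmul_one (x : EuclideanSpace ℝ (Fin n × Fin m)) : lmul 1 x = x := by
  ext p
  rw [lmul_apply]
  simp [Matrix.one_apply]

theorem lmul_mul (U V : Matrix (Fin n) (Fin n) ℝ) (x : EuclideanSpace ℝ (Fin n × Fin m)) :
    lmul (U * V) x = lmul U (lmul V x) := by
  ext p
  simp only [lmul_apply, Matrix.mul_apply, Finset.sum_mul, Finset.mul_sum]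
  rw [Finset.sum_comm]
  refine Finset.sum_congr rfl fun i _ => Finset.sum_congr rfl fun j _ => ?_
  ring

theorem lmul_add (U : Matrix (Fin n) (Fin n) ℝ) (x y : EuclideanSpace ℝ (Fin n × Fin m)) :
    lmul U (x + y) = lmul U x + lmul U y := by
  ext p
  simp only [lmul_apply, PiLp.add_apply, mul_add, Finset.sum_add_distrib]

theorem lmul_smul (U : Matrix (Fin n) (Fin n) ℝ) (c : ℝ) (x : EuclideanSpace ℝ (Fin n × Fin m)) :
    lmul U (c • x) = c • lmul U x := by
  ext p
  simp only [lmul_apply, PiLp.smul_apply, smul_eq_mul, Finset.mul_sum]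
  refine Finset.sum_congr rfl fun j _ => ?_
  ring

theorem inner_lmul (U : Matrix (Fin n) (Fin n) ℝ) (x y : EuclideanSpace ℝ (Fin n × Fin m)) :
    ⟪lmul U x, y⟫_ℝ = ⟪x, lmul U.transpose y⟫_ℝ := by
  simp only [PiLp.inner_apply, RCLike.inner_apply, conj_trivial, lmul_apply,
    Matrix.transpose_apply, Finset.mul_sum, Finset.sum_mul, Fintype.sum_prod_type]
  have h : ∀ (F : Fin n → Fin m → Fin n → ℝ), ∑ i, ∑ l, ∑ j, F i l j
      = ∑ j, ∑ l, ∑ i, F i l j := by
    intro F
    rw [Finset.sum_comm]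
    rw [Finset.sum_comm (f := fun j l => ∑ i, F i l j)]
    refine Finset.sum_congr rfl fun l _ => ?_
    rw [Finset.sum_comm]
  rw [h]
  refine Finset.sum_congr rfl fun i _ => Finset.sum_congr rfl fun l _ =>
    Finset.sum_congr rfl fun j _ => ?_
  ring

theorem norm_lmul (U : Matrix.specialOrthogonalGroup (Fin n) ℝ)
    (x : EuclideanSpace ℝ (Fin n × Fin m)) :
    ‖lmul (U : Matrix (Fin n) (Fin n) ℝ) x‖ = ‖x‖ := by
  have h1 : (U : Matrix (Fin n) (Fin n) ℝ).transpose * (U : Matrix (Fin n) (Fin n) ℝ) = 1 := by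
    have h2 := (Matrix.mem_specialOrthogonalGroup_iff.mp U.2).1
    have h3 := (Matrix.mem_orthogonalGroup_iff' (Fin n) ℝ).mp h2
    simpa [Matrix.star_eq_conjTranspose] using h3
  have h := inner_lmul (U : Matrix (Fin n) (Fin n) ℝ) x (lmul (U : Matrix (Fin n) (Fin n) ℝ) x)
  rw [← lmul_mul, h1, lmul_one, real_inner_self_eq_norm_sq, real_inner_self_eq_norm_sq] at h
  exact (sq_eq_sq₀ (norm_nonneg _) (norm_nonneg _)).mp h

/-- The representation of `SO(n)` on the `n × m` matrices. -/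
noncomputable def lrep (n m : ℕ) : Matrix.specialOrthogonalGroup (Fin n) ℝ →*
    (EuclideanSpace ℝ (Fin n × Fin m) ≃ₗᵢ[ℝ] EuclideanSpace ℝ (Fin n × Fin m)) where
  toFun U :=
    { toFun := lmul (U : Matrix (Fin n) (Fin n) ℝ)
      invFun := lmul ((U⁻¹ : Matrix.specialOrthogonalGroup (Fin n) ℝ) : Matrix (Fin n) (Fin n) ℝ)
      left_inv := fun x => by
        rw [← lmul_mul, ← Submonoid.coe_mul, inv_mul_cancel, Submonoid.coe_one, lmul_one]
      right_inv := fun x => by
        rw [← lmul_mul, ← Submonoid.coe_mul, mul_inv_cancel, Submonoid.coe_one, lmul_one]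
      map_add' := lmul_add _
      map_smul' := lmul_smul _
      norm_map' := norm_lmul U }
  map_one' := by
    ext1 x
    exact lmul_one x
  map_mul' U V := by
    ext1 x
    exact lmul_mul _ _ x

theorem lrep_apply (U : Matrix.specialOrthogonalGroup (Fin n) ℝ)
    (x : EuclideanSpace ℝ (Fin n × Fin m)) :
    lrep n m U x = lmul (U : Matrix (Fin n) (Fin n) ℝ) x := rfl

theorem polyRep_lrep : PolyRep (lrep n m) 1 := by
  intro x y
  refine ⟨∑ p : Fin n × Fin m, ∑ j : Fin n,
    MvPolynomial.C (x (j, p.2) * y p) * MvPolynomial.X (p.1, j), ?_, ?_⟩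
  · refine (MvPolynomial.totalDegree_finsetSum _ _).trans (Finset.sup_le fun p _ => ?_)
    refine (MvPolynomial.totalDegree_finsetSum _ _).trans (Finset.sup_le fun j _ => ?_)
    refine (MvPolynomial.totalDegree_mul _ _).trans ?_
    rw [MvPolynomial.totalDegree_C, MvPolynomial.totalDegree_X]
  · intro g
    rw [lrep_apply]
    simp only [PiLp.inner_apply, RCLike.inner_apply, conj_trivial, lmul_apply, map_sum, map_mul,
      MvPolynomial.eval_C, MvPolynomial.eval_X]
    refine Finset.sum_congr rfl fun p _ => ?_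
    rw [Finset.sum_mul]
    refine Finset.sum_congr rfl fun j _ => ?_
    ring

/-- The diagonal matrix with the entries `ε j`, as an element of `SO(n)`. -/
theorem diag_mem (ε : Fin n → ℝ) (h1 : ∀ j, ε j * ε j = 1) (h2 : ∏ j, ε j = 1) :
    Matrix.diagonal ε ∈ Matrix.specialOrthogonalGroup (Fin n) ℝ := by
  rw [Matrix.mem_specialOrthogonalGroup_iff, Matrix.mem_orthogonalGroup_iff]
  refine ⟨?_, ?_⟩
  · rw [Matrix.diagonal_transpose, Matrix.diagonal_mul_diagonal, ← Matrix.diagonal_one]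
    congr 1
    ext j
    exact h1 j
  · rw [Matrix.det_diagonal, h2]

theorem lmul_diag (ε : Fin n → ℝ) (x : EuclideanSpace ℝ (Fin n × Fin m)) (p : Fin n × Fin m) :
    lmul (Matrix.diagonal ε) x p = ε p.1 * x p := by
  rw [lmul_apply]
  simp [Matrix.diagonal_apply]

theorem lrep_fix (hn : 2 ≤ n) (x : EuclideanSpace ℝ (Fin n × Fin m))
    (h : ∀ g, lrep n m g x = x) : x = 0 := by
  ext p
  obtain ⟨k, hk⟩ : ∃ k : Fin n, k ≠ p.1 := by
    have : Nontrivial (Fin n) := Fin.nontrivial_iff_two_le.mpr hn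
    exact exists_ne p.1
  let ε : Fin n → ℝ := fun j => if j = p.1 ∨ j = k then -1 else 1
  have h1 : ∀ j, ε j * ε j = 1 := by
    intro j
    simp only [ε]
    split_ifs <;> norm_num
  have h2 : ∏ j, ε j = 1 := by
    simp only [ε]
    rw [Finset.prod_ite, Finset.prod_const, Finset.prod_const_one, mul_one]
    have : (Finset.univ.filter fun j => j = p.1 ∨ j = k) = {p.1, k} := by
      ext j; simp
    rw [this, Finset.card_pair hk.symm]
    norm_num
  have h3 := h ⟨_, diag_mem ε h1 h2⟩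
  have h4 := congrArg (fun z : EuclideanSpace ℝ (Fin n × Fin m) => z p) h3
  simp only [lrep_apply, lmul_diag] at h4
  have h5 : ε p.1 = -1 := by simp [ε]
  rw [h5] at h4
  rw [PiLp.zero_apply]
  linarith

/-- An invariant convex set is almost symmetric. -/
theorem almost_symm (hn : 3 ≤ n) (K : Set (EuclideanSpace ℝ (Fin n × Fin m))) (hK : Convex ℝ K)
    (hinv : ∀ U : Matrix.specialOrthogonalGroup (Fin n) ℝ, ∀ x ∈ K,
      lmul (U : Matrix (Fin n) (Fin n) ℝ) x ∈ K) (x : EuclideanSpace ℝ (Fin n × Fin m))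
    (hx : x ∈ K) : -(((n : ℝ) / (n - 2))⁻¹ • x) ∈ K := by
  have hn' : (3 : ℝ) ≤ n := by exact_mod_cast hn
  have hn0 : (0 : ℝ) < n := by linarith
  rcases Nat.even_or_odd n with he | ho
  · -- `-1` is a rotation
    have h1 : -x ∈ K := by
      have h2 := hinv ⟨_, diag_mem (fun _ => -1) (fun _ => by norm_num) (by
        rw [Finset.prod_const, Finset.card_univ, Fintype.card_fin, he.neg_one_pow])⟩ x hx
      have h3 : lmul (Matrix.diagonal fun _ : Fin n => (-1 : ℝ)) x = -x := by
        ext p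
        rw [lmul_diag, PiLp.neg_apply]
        ring
      rwa [h3] at h2
    have h := hK h1 hx (a := 1 - 1 / (n : ℝ)) (b := 1 / (n : ℝ))
      (by rw [sub_nonneg, div_le_one hn0]; linarith) (by positivity) (by ring)
    have e : (1 - 1 / (n : ℝ)) • -x + (1 / (n : ℝ)) • x = -(((n : ℝ) / (n - 2))⁻¹ • x) := by
      rw [smul_neg, ← sub_eq_neg_add, ← neg_sub, ← sub_smul]
      congr 2
      field_simp
      ring
    rwa [e] at h
  · -- the average of the diagonal matrices with all entries except one equal to `-1`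
    have h1 : ∀ j : Fin n, lmul (Matrix.diagonal fun i : Fin n => if i = j then (1 : ℝ) else -1) x
        ∈ K := by
      intro j
      refine hinv ⟨_, diag_mem _ (fun i => ?_) ?_⟩ x hx
      · split_ifs <;> norm_num
      · rw [Finset.prod_ite, Finset.prod_const_one, one_mul, Finset.prod_const]
        have : (Finset.univ.filter fun i => ¬ i = j).card = n - 1 := by
          rw [Finset.filter_ne', Finset.card_erase_of_mem (Finset.mem_univ j), Finset.card_univ,
            Fintype.card_fin]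
        rw [this]
        exact (Nat.Odd.sub_odd ho odd_one).neg_one_pow
    have h2 : ∑ j : Fin n, (1 / (n : ℝ)) • lmul (Matrix.diagonal fun i : Fin n =>
        if i = j then (1 : ℝ) else -1) x ∈ K := by
      refine hK.sum_mem (fun _ _ => by positivity) ?_ fun j _ => h1 j
      rw [Finset.sum_const, Finset.card_univ, Fintype.card_fin, nsmul_eq_mul]
      field_simp
    have e : ∑ j : Fin n, (1 / (n : ℝ)) • lmul (Matrix.diagonal fun i : Fin n =>
        if i = j then (1 : ℝ) else -1) x = -(((n : ℝ) / (n - 2))⁻¹ • x) := by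
      ext p
      rw [WithLp.ofLp_sum, Finset.sum_apply]
      simp only [PiLp.smul_apply, PiLp.neg_apply, smul_eq_mul, lmul_diag]
      rw [← Finset.mul_sum, ← Finset.sum_mul]
      have h3 : ∑ j : Fin n, (if p.1 = j then (1 : ℝ) else -1) = 2 - n := by
        rw [Finset.sum_ite, Finset.sum_const, Finset.sum_const, Finset.filter_eq,
          if_pos (Finset.mem_univ _), Finset.card_singleton, Finset.filter_ne,
          Finset.card_erase_of_mem (Finset.mem_univ _), Finset.card_univ, Fintype.card_fin,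
          nsmul_eq_mul, nsmul_eq_mul, Nat.cast_sub (by omega)]
        push_cast
        ring
      rw [h3]
      have h4 : (n : ℝ) - 2 ≠ 0 := by linarith
      field_simp
      ring
    rwa [e] at h2

theorem exp_num (n : ℝ) (hn : 3 ≤ n) :
    (n - 4) / 3840 ≤ (n - 2) / (960 * ((1 : ℕ) : ℝ) ^ 2 * (1 + n / (n - 2)) ^ 2) := by
  have h2 : 0 < n - 2 := by linarith
  have h1 : 0 < n - 1 := by linarith
  have e : (n - 2) / (960 * ((1 : ℕ) : ℝ) ^ 2 * (1 + n / (n - 2)) ^ 2)
      = (n - 2) ^ 3 / (3840 * (n - 1) ^ 2) := by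
    have h3 : 1 + n / (n - 2) = 2 * (n - 1) / (n - 2) := by
      field_simp
      ring
    rw [h3]
    field_simp
    norm_num
  rw [e, div_le_div_iff₀ (by norm_num) (by positivity)]
  nlinarith

/-- **Convex bodies of matrices invariant under the rotations of the columns.** -/
theorem cover_matrix (hn : 3 ≤ n) (hm : 1 ≤ m) (K : Set (EuclideanSpace ℝ (Fin n × Fin m)))
    (hK : Convex ℝ K) (hKc : IsCompact K) (hKi : (interior K).Nonempty)
    (hinv : ∀ U : Matrix.specialOrthogonalGroup (Fin n) ℝ, ∀ x ∈ K,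
      lmul (U : Matrix (Fin n) (Fin n) ℝ) x ∈ K) :
    ∃ T : Finset (EuclideanSpace ℝ (Fin n × Fin m)),
      K ⊆ ⋃ t ∈ T, (fun x => t + x) '' interior K ∧
      (T.card : ℝ) ≤ 1 + 13 * Module.finrank ℝ (EuclideanSpace ℝ (Fin n × Fin m))
        * Real.log (2 * Module.finrank ℝ (EuclideanSpace ℝ (Fin n × Fin m)) ^ 2
        + 2 * Module.finrank ℝ (EuclideanSpace ℝ (Fin n × Fin m)) + 1)
        * 2 ^ Module.finrank ℝ (EuclideanSpace ℝ (Fin n × Fin m))
        * Real.exp (-(((n : ℝ) - 4) / 3840)) := by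
  have hn' : (3 : ℝ) ≤ n := by exact_mod_cast hn
  have hfr : Module.finrank ℝ (EuclideanSpace ℝ (Fin n × Fin m)) = n * m := by simp
  have hd : 2 ≤ Module.finrank ℝ (EuclideanSpace ℝ (Fin n × Fin m)) := by
    rw [hfr]
    nlinarith
  have h2 : 0 < (n : ℝ) - 2 := by linarith
  obtain ⟨T, hT1, hT2⟩ := cover_so' hn 1 le_rfl (lrep n m) polyRep_lrep
    (lrep_fix (by omega)) K hd hK hKc hKi ((n : ℝ) / (n - 2)) (by positivity)
    (almost_symm hn K hK hinv) hinv
  refine ⟨T, hT1, hT2.trans ?_⟩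
  have hd' : (2 : ℝ) ≤ Module.finrank ℝ (EuclideanSpace ℝ (Fin n × Fin m)) := by
    exact_mod_cast hd
  have hlog : 0 ≤ Real.log (2 * (Module.finrank ℝ (EuclideanSpace ℝ (Fin n × Fin m)) : ℝ) ^ 2
      + 2 * Module.finrank ℝ (EuclideanSpace ℝ (Fin n × Fin m)) + 1) :=
    Real.log_nonneg (by nlinarith)
  have hexp : Real.exp (-(((n : ℝ) - 2) / (960 * ((1 : ℕ) : ℝ) ^ 2 * (1 + n / (n - 2)) ^ 2)))
      ≤ Real.exp (-(((n : ℝ) - 4) / 3840)) := by
    apply Real.exp_le_exp.mpr
    exact neg_le_neg (exp_num n hn')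
  gcongr

/-- The numerical condition. -/
theorem strict (d : ℕ) (hd : 2 ≤ d) (N : ℕ) (s : ℝ)
    (h : (N : ℝ) ≤ 1 + 13 * d * Real.log (2 * d ^ 2 + 2 * d + 1) * 2 ^ d * Real.exp (-s))
    (hs : 5 + 2 * Real.log d ≤ s) : N < 2 ^ d := by
  have hd' : (2 : ℝ) ≤ d := by exact_mod_cast hd
  have hd0 : (0 : ℝ) < d := by linarith
  have h4 : (4 : ℝ) ≤ 2 ^ d := by
    calc (4 : ℝ) = 2 ^ 2 := by norm_num
      _ ≤ 2 ^ d := pow_le_pow_right₀ (by norm_num) hd
  have h1 : Real.log (2 * d ^ 2 + 2 * d + 1) ≤ 4 * d := by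
    have e1 : Real.log (2 * (d : ℝ) ^ 2 + 2 * d + 1) ≤ Real.log ((2 * d) ^ 2) :=
      Real.log_le_log (by positivity) (by nlinarith)
    rw [Real.log_pow] at e1
    have e2 := Real.log_le_sub_one_of_pos (show (0 : ℝ) < 2 * d by positivity)
    push_cast at e1
    linarith
  have h2 : Real.exp (-s) ≤ 1 / (148 * d ^ 2) := by
    have e1 : Real.exp (-s) ≤ Real.exp (-(5 + 2 * Real.log d)) :=
      Real.exp_le_exp.mpr (by linarith)
    have e2 : Real.exp (-(5 + 2 * Real.log d)) = (Real.exp 5)⁻¹ * ((d : ℝ) ^ 2)⁻¹ := by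
      rw [neg_add, Real.exp_add, Real.exp_neg, Real.exp_neg]
      congr 2
      rw [two_mul, Real.exp_add, Real.exp_log hd0]
      ring
    have h9 : (148 : ℝ) ≤ Real.exp 5 := by
      have h5 : (2.718 : ℝ) ≤ Real.exp 1 := by
        have := Real.exp_one_gt_d9
        linarith
      have h6 : Real.exp 5 = Real.exp 1 ^ 5 := by
        rw [← Real.exp_nat_mul]; norm_num
      rw [h6]
      calc (148 : ℝ) ≤ 2.718 ^ 5 := by norm_num
        _ ≤ Real.exp 1 ^ 5 := by gcongr
    refine e1.trans (e2.le.trans ?_)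
    rw [one_div, mul_inv]
    gcongr
  have h3 : (N : ℝ) < ((2 ^ d : ℕ) : ℝ) := by
    push_cast
    have hlog : 0 ≤ Real.log (2 * (d : ℝ) ^ 2 + 2 * d + 1) := Real.log_nonneg (by nlinarith)
    calc (N : ℝ) ≤ 1 + 13 * d * Real.log (2 * d ^ 2 + 2 * d + 1) * 2 ^ d * Real.exp (-s) := h
      _ ≤ 1 + 13 * d * (4 * d) * 2 ^ d * (1 / (148 * d ^ 2)) := by gcongr
      _ = 1 + 52 / 148 * 2 ^ d := by
        field_simp
        ring
      _ < 2 ^ d := by linarith
  exact_mod_cast h3

end Pool.Agent.Y368.Lie
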